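import Pool.Agent.H507R3.HopfVar

/-!
# A polynomial counterexample to the finite order variant of the Hopf lemma

For every `n = m + 1 ≥ 2` the polynomials `u = t |y|² + t⁵ / 200` and
`v = t (|y|² + |y|⁴) / 2 + (t / 3)⁵ / 200` satisfy the conditions 1-5 of the problem, and `v < u` in `Ω`.
-/

set_option autoImplicit false

namespace Pool.Agent.Results.MP_3d7355_an.PolynomialCounterexample

open Set

/-- The space `ℝ^m` of the variable `y`; the points of `ℝ^n`, `n = m + 1`, are the pairs `(t, y)`. -/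
abbrev Y (m : ℕ) : Type := EuclideanSpace ℝ (Fin m)

/-- `w_t`, the derivative in the variable `t`. -/
noncomputable def dt {m : ℕ} (w : ℝ × Y m → ℝ) (p : ℝ × Y m) : ℝ :=
  deriv (fun s : ℝ => w (s, p.2)) p.1

/-- `w_{y_j}`, the derivative in the variable `y_j`. -/
noncomputable def dy {m : ℕ} (j : Fin m) (w : ℝ × Y m → ℝ) (p : ℝ × Y m) : ℝ :=
  deriv (fun s : ℝ => w (p.1, p.2 + s • EuclideanSpace.single j (1 : ℝ))) 0

/-- The Laplacian in all `n = m + 1` variables `(t, y)`. -/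
noncomputable def lap {m : ℕ} (w : ℝ × Y m → ℝ) (p : ℝ × Y m) : ℝ :=
  dt (dt w) p + ∑ j, dy j (dy j w) p

/-- The domain `Ω = {(t, y) : |y| < 1, 0 < t < 1}`. -/
def Om (m : ℕ) : Set (ℝ × Y m) := {p | ‖p.2‖ < 1 ∧ 0 < p.1 ∧ p.1 < 1}

/-- The function `f` of one variable vanishes to finite order at `0`: it vanishes at `0` and some
derivative of it at `0` is nonzero. -/
def FiniteOrder (f : ℝ → ℝ) : Prop := f 0 = 0 ∧ ∃ k : ℕ, iteratedDeriv k f 0 ≠ 0

/-- The hypotheses of the problem on `u` and `v` (with smoothness even on all of `ℝ^n`). -/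
structure Admissible (m : ℕ) (u v : ℝ × Y m → ℝ) : Prop where
  smooth_u : ContDiff ℝ (⊤ : ℕ∞) u
  smooth_v : ContDiff ℝ (⊤ : ℕ∞) v
  le : ∀ p ∈ Om m, v p ≤ u p
  u_pos : ∀ p ∈ Om m, 0 < u p
  v_pos : ∀ p ∈ Om m, 0 < v p
  ut_pos : ∀ p ∈ Om m, 0 < dt u p
  u_zero : ∀ y : Y m, ‖y‖ < 1 → u (0, y) = 0
  comparison : ∀ (t s : ℝ) (y : Y m), 0 < t → t ≤ s → s < 1 → ‖y‖ < 1 →
    u (t, y) = v (s, y) → lap u (t, y) ≤ lap v (s, y)
  ut_zero : dt u (0, 0) = 0
  finite_u : FiniteOrder fun t => u (t, 0)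
  finite_v : FiniteOrder fun t => v (t, 0)

open Pool.Agent.H507R3.Hopf (mf mf_contDiff dt_mf lap_mf key_ineq)

lemma lap_eq {m : ℕ} (w : ℝ × Y m → ℝ) : lap w = Pool.Agent.H507R3.Hopf.lap w := rfl

lemma dt_eq {m : ℕ} (w : ℝ × Y m → ℝ) : dt w = Pool.Agent.H507R3.Hopf.dt w := rfl

lemma hasDeriv_one (c t : ℝ) : HasDerivAt (fun t : ℝ => (c * t) ^ 5 / 200) (c ^ 5 * t ^ 4 / 40) t := by
  have h := (((hasDerivAt_id' t).const_mul c).pow 5).div_const 200
  refine h.congr_deriv ?_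
  push_cast
  ring

lemma hasDeriv_two (c t : ℝ) : HasDerivAt (fun t : ℝ => c ^ 5 * t ^ 4 / 40) (c ^ 5 * t ^ 3 / 10) t := by
  have h := (((hasDerivAt_id' t).pow 4).const_mul (c ^ 5)).div_const 40
  refine h.congr_deriv ?_
  push_cast
  ring

lemma finiteOrder_pow {c : ℝ} (hc : c ≠ 0) : FiniteOrder fun t : ℝ => (c * t) ^ 5 / 200 := by
  refine ⟨by norm_num, 5, ?_⟩
  have e : (fun t : ℝ => (c * t) ^ 5 / 200) = fun t => (c ^ 5 / 200) * t ^ 5 := by
    funext t; ring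
  rw [e, iteratedDeriv_const_mul_field, iteratedDeriv_eq_iterate, iter_deriv_pow]
  norm_num [Finset.prod_range_succ]
  exact hc

/-- **Counterexample.**  For every `n = m + 1 ≥ 2` there are `u, v` satisfying all hypotheses of the
problem with `u > v` at every point of `Ω`. -/
theorem result (m : ℕ) (hm : 1 ≤ m) :
    ∃ u v : ℝ × Y m → ℝ, Admissible m u v ∧ ∀ p ∈ Om m, v p < u p := by
  have hM : (1 : ℝ) ≤ m := by exact_mod_cast hm
  set e : ℝ → ℝ := fun t => (1 * t) ^ 5 / 200 with he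
  set f : ℝ → ℝ := fun t => (1 / 3 * t) ^ 5 / 200 with hf
  have es : ContDiff ℝ (⊤ : ℕ∞) e := by rw [he]; fun_prop
  have fs : ContDiff ℝ (⊤ : ℕ∞) f := by rw [hf]; fun_prop
  have hlt : ∀ p ∈ Om m, mf (1 / 2) (1 / 2) f p < mf (m := m) 1 0 e p := by
    rintro ⟨t, y⟩ ⟨h1, h2, h3⟩
    simp only [mf, he, hf] at *
    have h4 : 0 ≤ ‖y‖ := norm_nonneg y
    have h5 : ‖y‖ ^ 4 ≤ ‖y‖ ^ 2 := pow_le_pow_of_le_one h4 h1.le (by norm_num)
    have h6 : 0 < t ^ 5 := by positivity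
    nlinarith [mul_nonneg h2.le (sub_nonneg.mpr h5)]
  refine ⟨mf 1 0 e, mf (1 / 2) (1 / 2) f, ⟨mf_contDiff _ _ es, mf_contDiff _ _ fs,
    fun p hp => (hlt p hp).le, ?_, ?_, ?_, ?_, ?_, ?_, ?_, ?_⟩, hlt⟩
  · rintro ⟨t, y⟩ ⟨h1, h2, h3⟩
    simp only [mf, he] at *
    positivity
  · rintro ⟨t, y⟩ ⟨h1, h2, h3⟩
    simp only [mf, hf] at *
    positivity
  · rintro ⟨t, y⟩ ⟨h1, h2, h3⟩
    rw [dt_eq, dt_mf _ _ (hasDeriv_one 1)]
    simp only at *
    positivity
  · intro y _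
    simp [mf, he]
  · intro t s y ht hts hs hy heq
    rw [lap_eq, lap_eq, lap_mf _ _ (hasDeriv_one 1) (hasDeriv_two 1),
      lap_mf _ _ (hasDeriv_one (1 / 3)) (hasDeriv_two (1 / 3))]
    simp only [mf] at *
    have key := key_ineq (e := e) (e'' := fun t => t ^ 3 / 10) (M := m) (t := t) (s := s)
      (q := ‖y‖ ^ 2) hM ht hts hs (by positivity) ?_ ?_ ?_ ?_ ?_ ?_
    · have hs0 : 0 < s := lt_of_lt_of_le ht hts
      have : 0 ≤ (1 / 3 : ℝ) ^ 5 * s ^ 3 / 10 := by positivity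
      nlinarith
    · intro a b ha _ hb _ hab
      simp only [he]
      have : (1 * a) ^ 5 < (1 * b) ^ 5 := pow_lt_pow_left₀ (by linarith) (by linarith) (by norm_num)
      linarith
    · simp only [he]; positivity
    · intro h
      simp only [he]
      have hs0 : 0 < s := lt_of_lt_of_le ht hts
      have h7 : (9 / 20 * s) ^ 5 ≤ t ^ 5 := pow_le_pow_left₀ (by positivity) h 5
      have h8 : 0 < s ^ 5 := by positivity
      have h9 : (9 / 20 * s) ^ 5 = (9 / 20) ^ 5 * s ^ 5 := by ring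
      have h10 : (1 * (s / 3)) ^ 5 = (1 / 3) ^ 5 * s ^ 5 := by ring
      rw [h9] at h7
      rw [h10, one_mul]
      norm_num at h7 ⊢
      linarith
    · simp only [he]
      have : 0 ≤ t ^ 6 := by positivity
      nlinarith
    · have ht1 : t < 1 := lt_of_le_of_lt hts hs
      have : t ^ 3 ≤ t := by
        calc t ^ 3 = t * t ^ 2 := by ring
          _ ≤ t * 1 := by
            apply mul_le_mul_of_nonneg_left _ ht.le
            exact pow_le_one₀ ht.le ht1.le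
          _ = t := mul_one t
      linarith
    · simp only [he, hf] at heq ⊢
      have : (1 / 3 * s) ^ 5 = (1 * (s / 3)) ^ 5 := by ring
      rw [this] at heq
      linarith
  · rw [dt_eq, dt_mf _ _ (hasDeriv_one 1)]
    simp
  · have : (fun t : ℝ => mf (m := m) 1 0 e (t, 0)) = e := by
      funext t; simp [mf]
    rw [this]
    exact finiteOrder_pow one_ne_zero
  · have : (fun t : ℝ => mf (m := m) (1 / 2) (1 / 2) f (t, 0)) = f := by
      funext t; simp [mf]
    rw [this]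
    exact finiteOrder_pow (by norm_num)

end Pool.Agent.Results.MP_3d7355_an.PolynomialCounterexample
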